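import Pool.Agent.TH733.RG.Triv
import Pool.Agent.H490R3.LH.Fin1

/-!
# Common translates of independent random oracles: lowness of co-sparse sets in `NP`

`xor2 A B` is the symmetric difference of the oracles `A` and `B`, the translate of `A` by `B`.

* For every sequence `B 0, B 1, ...` of oracles there is one oracle `A` such that, relative to every
  translate of `A` by a `B i`, `P = NP`, so that all sets in `NP` are low at all levels.
* Let the `B i` be independent random oracles. Almost surely, for every set `I` of numbers there is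
  one oracle `A` such that for all `i`, relative to the translate of `A` by `B i`: if `i` is in `I`,
  then every set in `NP` is in `L₂` (and in all `L_k`); if `i` is not in `I`, then some co-sparse
  set in `NP` is not in `L₂` (but in the next class `L̂₃`).

So every pattern of answers to Q1 is realised by the translates of one oracle.

Proof. `A` codes the computations relative to its translates by the `B i`, `i ∈ I`, masked by
`B i`, so that `P = PSPACE` relative to these translates; on the strings of length at most `n` it
depends on `I` only in a very slowly growing initial segment; and for a fixed `I` the translate by an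
independent random oracle is random. The theorem on random oracles (starting file `RandomOracle`)
says that the exceptional oracles have measure zero. Every set of measure zero is a null set for some
gauge that tends to infinity (`RG/Zero.lean`), and a slow enough dependence on `I` allows to treat
all `I` at the same time.
-/

set_option autoImplicit false

namespace Pool.Agent.Results.MP_2bf3f9_lc.IndependentTranslates

open MeasureTheory Pool.Agent.NPC Pool.Agent.H628R3.RO
open Pool.Agent.H490R3.LH
open Pool.Agent.H583R2.S2 (chr IsP)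
open Pool.Agent.TH733.RT (xor2 randomSeq)
open Pool.Agent.TH733.RG (Collapse patterns collapse_all)

/-- Every co-sparse set in `NP` is in `L₂`, relative to `X`. -/
def CoSparseLow (X : Oracle) : Prop := ∀ A, IsNP X A → Sparse Aᶜ → A ∈ Low X 2

/-- Every set in `NP` is in all the classes `L_k`, relative to `X`. -/
def AllLow (X : Oracle) : Prop := ∀ A, IsNP X A → ∀ k, A ∈ Low X k

/-- Some co-sparse set in `NP` is in `L̂₃` but not in `L₂`, relative to `X`. -/
def NotLow (X : Oracle) : Prop := ∃ A, IsNP X A ∧ Sparse Aᶜ ∧ A ∉ Low X 2 ∧ A ∈ LowD X 3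

theorem p_eq_np {X : Oracle} (h : Collapse X) {L : Set (List Bool)} (hL : IsNP X L) :
    IsP X L := by
  obtain ⟨F, hF, h1, h2⟩ := h.select (Pool.Agent.TH687.OneDeg.of_np hL)
    (NPC.Poly.const [true]) (NPC.Poly.const [])
  refine ⟨F, hF, fun x => ?_⟩
  by_cases hx : x ∈ L
  · exact iff_of_true hx (h1 x hx)
  · exact iff_of_false hx (by rw [h2 x hx]; simp)

theorem co_np {X : Oracle} (h : Collapse X) {L : Set (List Bool)} (hL : IsNP X L) :
    IsCoNP X L :=
  (p_SB.1 X L (p_eq_np h hL)).2

theorem join_eq_chr (X : Oracle) (A : Set (List Bool)) :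
    join X A = chr {z | join X A z = true} := by
  funext z
  unfold chr
  simp

theorem allLow_of {X : Oracle} (h : Collapse X) : AllLow X := by
  intro A hA k
  have hK : IsP X {z | join X A z = true} :=
    p_eq_np h ((t_SJ X A).2.2.2 hA (co_np h hA)).1
  refine ⟨hA, ?_⟩
  induction k with
  | zero =>
    rintro L ⟨F, hF, hL⟩
    rw [join_eq_chr] at hF
    exact ⟨F, t_CP X _ F hK hF, hL⟩
  | succ k ih =>
    rintro L ⟨K, h1, h2⟩
    exact ⟨K, ih K h1, h2⟩

theorem result :
    (∀ B : ℕ → Oracle, ∃ A : Oracle, ∀ i, AllLow (xor2 A (B i))) ∧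
    ∀ᵐ B ∂randomSeq, ∀ I : Set ℕ, ∃ A : Oracle, ∀ i,
      (i ∈ I ↔ CoSparseLow (xor2 A (B i))) ∧ (i ∈ I ↔ AllLow (xor2 A (B i))) ∧
      (i ∉ I → NotLow (xor2 A (B i))) := by
  refine ⟨fun B => ?_, ?_⟩
  · obtain ⟨A, hA⟩ := collapse_all B
    exact ⟨A, fun i => allLow_of (hA i)⟩
  · have h0 : ∀ᵐ A ∂randomOracle, A ∉ {A : Oracle | ¬ NotLow A} := by
      filter_upwards [main_one] with X h hcon
      exact hcon ⟨CC X, h.2.2.2.2.1, h.2.2.2.2.2, h.2.2.1.2.1, h.2.2.1.1⟩
    filter_upwards [patterns h0] with B hB I
    obtain ⟨A, h1, h2⟩ := hB I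
    refine ⟨A, fun i => ?_⟩
    by_cases hi : i ∈ I
    · have h3 := allLow_of (h1 i hi)
      exact ⟨iff_of_true hi fun K hK _ => h3 K hK 2, iff_of_true hi h3, fun h => absurd hi h⟩
    · have h3 : NotLow (xor2 A (B i)) := not_not.1 (h2 i hi)
      have h4 : ¬ CoSparseLow (xor2 A (B i)) := by
        intro h
        obtain ⟨K, h5, h6, h7, -⟩ := h3
        exact h7 (h K h5 h6)
      exact ⟨iff_of_false hi h4, iff_of_false hi fun h => h4 fun K hK _ => h K hK 2, fun _ => h3⟩

end Pool.Agent.Results.MP_2bf3f9_lc.IndependentTranslates
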